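import Pool.Agent.H788R3.EggType

set_option autoImplicit false
open Set Metric Complex Filter Topology Asymptotics
open Pool.Agent.H788R3.EggSq (egg Egg)

namespace Pool.Agent.Results.MP_63facb_an.EggTangential

/-- complex Euclidean plane -/
abbrev C2 := EuclideanSpace ℂ (Fin 2)

/-- the squeezing function of a domain `D` at `z` -/
noncomputable def squeezing (D : Set C2) (z : C2) : ℝ :=
  sSup {r : ℝ | 0 < r ∧ ∃ F : C2 → C2, DifferentiableOn ℂ F D ∧ InjOn F D ∧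
    MapsTo F D (ball 0 1) ∧ F z = 0 ∧ ball 0 r ⊆ F '' D}

/-- `ρ` is a smooth defining function of `D` on the open set `U` -/
def LocalDef (D U : Set C2) (ρ : C2 → ℝ) : Prop :=
  IsOpen U ∧ (∀ n : ℕ, ContDiffOn ℝ n ρ U) ∧ (∀ x ∈ U, x ∈ D ↔ ρ x < 0) ∧
    ∀ x ∈ U, ρ x = 0 → fderiv ℝ ρ x ≠ 0

/-- Levi form: `∂²/∂t∂t̄` of `ρ(x+tv)` at `t = 0` -/
noncomputable def levi (ρ : C2 → ℝ) (x v : C2) : ℝ :=
  (1 / 4) * (iteratedDeriv 2 (fun s : ℝ => ρ (x + (s : ℂ) • v)) 0 +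
    iteratedDeriv 2 (fun s : ℝ => ρ (x + ((s : ℂ) * Complex.I) • v)) 0)

/-- complex tangent vectors -/
def CTangent (ρ : C2 → ℝ) (x v : C2) : Prop :=
  fderiv ℝ ρ x v = 0 ∧ fderiv ℝ ρ x (Complex.I • v) = 0

/-- the boundary is smooth and Levi pseudoconvex near `p` -/
def LeviPseudoconvexNear (D : Set C2) (p : C2) : Prop :=
  ∃ (U : Set C2) (ρ : C2 → ℝ), p ∈ U ∧ LocalDef D U ρ ∧
    ∀ x ∈ U, ρ x = 0 → ∀ v, CTangent ρ x v → 0 ≤ levi ρ x v

/-- the boundary is smooth near `p` and strongly pseudoconvex at `p` -/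
def StronglyPseudoconvexAt (D : Set C2) (p : C2) : Prop :=
  ∃ (U : Set C2) (ρ : C2 → ℝ), p ∈ U ∧ LocalDef D U ρ ∧
    ∀ v, v ≠ 0 → CTangent ρ p v → 0 < levi ρ p v

/-- finite D'Angelo type at `x`: the order of vanishing of `ρ ∘ γ` is at most `C` times that of
`γ - x` for all germs of holomorphic discs `γ` through `x` -/
def FiniteTypeAt (D : Set C2) (x : C2) : Prop :=
  ∃ (U : Set C2) (ρ : C2 → ℝ), x ∈ U ∧ LocalDef D U ρ ∧ ∃ C : ℕ,
    ∀ γ : ℂ → C2, AnalyticAt ℂ γ 0 → γ 0 = x → ∀ m N : ℕ,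
      ¬ ((fun t => γ t - x) =O[𝓝 0] fun t : ℂ => ‖t‖ ^ (m + 1)) →
      ((fun t => ρ (γ t)) =O[𝓝 0] fun t : ℂ => ‖t‖ ^ N) → N ≤ C * m

/-- case (A), `n = 2` -/
def CaseA (D : Set C2) (p : C2) : Prop := LeviPseudoconvexNear D p ∧ FiniteTypeAt D p

/-- case (B) for `n = 2` (the condition on `n - 2 = 0` positive eigenvalues is void) -/
def CaseB (D : Set C2) (p : C2) : Prop :=
  LeviPseudoconvexNear D p ∧ ∃ V : Set C2, IsOpen V ∧ p ∈ V ∧ ∀ x ∈ V ∩ frontier D, FiniteTypeAt D x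

/-- case (C) for `n = 2` -/
def CaseC (D : Set C2) (p : C2) : Prop :=
  Convex ℝ D ∧ (∃ (U : Set C2) (ρ : C2 → ℝ), p ∈ U ∧ LocalDef D U ρ) ∧
    ∃ V : Set C2, IsOpen V ∧ p ∈ V ∧ ∀ x ∈ V ∩ frontier D, FiniteTypeAt D x

theorem egg_contDiff (n : ℕ) : ContDiff ℝ n egg := by
  have h0 : ContDiff ℝ n (fun v : C2 => v 0) := by fun_prop
  have h1 : ContDiff ℝ n (fun v : C2 => v 1) := by fun_prop
  have h2 : ContDiff ℝ n (fun v : C2 => ‖v 1‖ ^ 2) := h1.norm_sq ℝ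
  have h3 : ContDiff ℝ n (fun v : C2 => ‖v 0‖ ^ 2) := h0.norm_sq ℝ
  have h4 : egg = fun v : C2 => ‖v 0‖ ^ 2 + (‖v 1‖ ^ 2) ^ 2 - 1 := by
    ext v
    show ‖v 0‖ ^ 2 + ‖v 1‖ ^ 4 - 1 = _
    ring
  rw [h4]
  exact (h3.add (h2.pow 2)).sub contDiff_const

theorem norm_line (z a : ℂ) (s : ℝ) :
    ‖z + (s : ℂ) * a‖ ^ 2 = ‖z‖ ^ 2 + 2 * (z.re * a.re + z.im * a.im) * s + ‖a‖ ^ 2 * s ^ 2 := by
  simp only [← Complex.normSq_eq_norm_sq, Complex.normSq_apply, Complex.add_re, Complex.add_im, Complex.mul_re,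
    Complex.mul_im, Complex.ofReal_re, Complex.ofReal_im]
  ring

theorem egg_line (x v : C2) (s : ℝ) : egg (x + (s : ℂ) • v) =
    (‖x 0‖ ^ 2 + 2 * ((x 0).re * (v 0).re + (x 0).im * (v 0).im) * s + ‖v 0‖ ^ 2 * s ^ 2) +
    (‖x 1‖ ^ 2 + 2 * ((x 1).re * (v 1).re + (x 1).im * (v 1).im) * s + ‖v 1‖ ^ 2 * s ^ 2) ^ 2 - 1 := by
  show ‖(x + (s : ℂ) • v) 0‖ ^ 2 + ‖(x + (s : ℂ) • v) 1‖ ^ 4 - 1 = _
  have h0 : (x + (s : ℂ) • v) 0 = x 0 + s * v 0 := by simp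
  have h1 : (x + (s : ℂ) • v) 1 = x 1 + s * v 1 := by simp
  rw [h0, h1, ← norm_line, ← norm_line]
  ring

theorem hd_cast {f : ℝ → ℝ} {a b x : ℝ} (h : HasDerivAt f a x) (e : a = b) : HasDerivAt f b x := e ▸ h

theorem poly_deriv (a0 a1 a2 b0 b1 b2 s : ℝ) :
    HasDerivAt (fun s : ℝ => (a0 + a1 * s + a2 * s ^ 2) + (b0 + b1 * s + b2 * s ^ 2) ^ 2 - 1)
      ((a1 + a2 * (2 * s)) + 2 * (b0 + b1 * s + b2 * s ^ 2) * (b1 + b2 * (2 * s))) s := by
  have hq : ∀ c0 c1 c2 : ℝ, HasDerivAt (fun s : ℝ => c0 + c1 * s + c2 * s ^ 2) (c1 + c2 * (2 * s)) s := by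
    intro c0 c1 c2
    have h1 : HasDerivAt (fun s : ℝ => c1 * s) (c1 * 1) s := (hasDerivAt_id s).const_mul c1
    have h2 : HasDerivAt (fun s : ℝ => s ^ 2) (((2:ℕ):ℝ) * s ^ (2 - 1)) s := hasDerivAt_pow 2 s
    have h3 : HasDerivAt (fun s : ℝ => c0 + c1 * s + c2 * s ^ 2) (c1 * 1 + c2 * (((2:ℕ):ℝ) * s ^ (2 - 1))) s :=
      (h1.const_add c0).add (h2.const_mul c2)
    exact hd_cast h3 (by norm_num)
  have h4 := (hq b0 b1 b2).pow 2
  have h5 : HasDerivAt (fun s : ℝ => (b0 + b1 * s + b2 * s ^ 2) ^ 2)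
      (2 * (b0 + b1 * s + b2 * s ^ 2) * (b1 + b2 * (2 * s))) s := by
    exact hd_cast h4 (by norm_num)
  exact ((hq a0 a1 a2).add h5).sub_const 1

theorem poly_second (a0 a1 a2 b0 b1 b2 : ℝ) :
    iteratedDeriv 2 (fun s : ℝ => (a0 + a1 * s + a2 * s ^ 2) + (b0 + b1 * s + b2 * s ^ 2) ^ 2 - 1) 0 =
      2 * a2 + 2 * b1 ^ 2 + 4 * b0 * b2 := by
  rw [iteratedDeriv_succ, iteratedDeriv_one]
  have h1 : deriv (fun s : ℝ => (a0 + a1 * s + a2 * s ^ 2) + (b0 + b1 * s + b2 * s ^ 2) ^ 2 - 1) =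
      fun s => (a1 + a2 * (2 * s)) + 2 * (b0 + b1 * s + b2 * s ^ 2) * (b1 + b2 * (2 * s)) :=
    funext fun s => (poly_deriv a0 a1 a2 b0 b1 b2 s).deriv
  rw [h1]
  have h2 : HasDerivAt (fun s : ℝ => (a1 + a2 * (2 * s)) + 2 * (b0 + b1 * s + b2 * s ^ 2) * (b1 + b2 * (2 * s)))
      (2 * a2 + 2 * b1 ^ 2 + 4 * b0 * b2) 0 := by
    have e1 : HasDerivAt (fun s : ℝ => 2 * s) (2 * 1) 0 := (hasDerivAt_id (0:ℝ)).const_mul 2
    have e2 : HasDerivAt (fun s : ℝ => a1 + a2 * (2 * s)) (a2 * (2 * 1)) 0 := (e1.const_mul a2).const_add a1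
    have e3 : HasDerivAt (fun s : ℝ => b1 + b2 * (2 * s)) (b2 * (2 * 1)) 0 := (e1.const_mul b2).const_add b1
    have e4 : HasDerivAt (fun s : ℝ => b0 + b1 * s + b2 * s ^ 2) (b1 + b2 * (2 * 0)) 0 := by
      have h1 : HasDerivAt (fun s : ℝ => b1 * s) (b1 * 1) 0 := (hasDerivAt_id (0:ℝ)).const_mul b1
      have h2 : HasDerivAt (fun s : ℝ => s ^ 2) (((2:ℕ):ℝ) * (0:ℝ) ^ (2 - 1)) 0 := hasDerivAt_pow 2 0
      have h3 : HasDerivAt (fun s : ℝ => b0 + b1 * s + b2 * s ^ 2) (b1 * 1 + b2 * (((2:ℕ):ℝ) * (0:ℝ) ^ (2 - 1))) 0 :=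
        (h1.const_add b0).add (h2.const_mul b2)
      exact hd_cast h3 (by norm_num)
    have e5 : HasDerivAt (fun s : ℝ => (a1 + a2 * (2 * s)) + 2 * (b0 + b1 * s + b2 * s ^ 2) * (b1 + b2 * (2 * s)))
        (a2 * (2 * 1) + ((2 * (b1 + b2 * (2 * 0))) * (b1 + b2 * (2 * 0)) +
          2 * (b0 + b1 * 0 + b2 * 0 ^ 2) * (b2 * (2 * 1)))) 0 := e2.add ((e4.const_mul 2).mul e3)
    exact hd_cast e5 (by ring)
  exact h2.deriv

theorem egg_second (x v : C2) : 0 ≤ iteratedDeriv 2 (fun s : ℝ => egg (x + (s : ℂ) • v)) 0 := by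
  have h1 : (fun s : ℝ => egg (x + (s : ℂ) • v)) = fun s : ℝ =>
    (‖x 0‖ ^ 2 + 2 * ((x 0).re * (v 0).re + (x 0).im * (v 0).im) * s + ‖v 0‖ ^ 2 * s ^ 2) +
    (‖x 1‖ ^ 2 + 2 * ((x 1).re * (v 1).re + (x 1).im * (v 1).im) * s + ‖v 1‖ ^ 2 * s ^ 2) ^ 2 - 1 :=
    funext fun s => egg_line x v s
  rw [h1, poly_second]
  positivity

theorem egg_levi (x v : C2) : 0 ≤ levi egg x v := by
  unfold levi
  have h1 := egg_second x v
  have h2 := egg_second x (Complex.I • v)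
  have h3 : (fun s : ℝ => egg (x + ((s : ℂ) * Complex.I) • v)) = fun s : ℝ => egg (x + (s : ℂ) • (Complex.I • v)) := by
    ext s
    rw [smul_smul]
  rw [h3]
  linarith

theorem egg_grad (x : C2) (hx : egg x = 0) : fderiv ℝ egg x ≠ 0 := by
  intro hzero
  have hdiff : DifferentiableAt ℝ egg x := (egg_contDiff 1).differentiable (by norm_num) x
  have h1 : HasDerivAt (fun s : ℝ => x + (s : ℂ) • x) x 0 := by
    have h2 : HasDerivAt (fun s : ℝ => (s : ℂ) • x) ((1:ℂ) • x) 0 :=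
      (Complex.ofRealCLM.hasDerivAt (x := (0:ℝ))).smul_const x
    rw [one_smul] at h2
    exact h2.const_add x
  have h2 : HasFDerivAt egg (0 : C2 →L[ℝ] ℝ) (x + ((0:ℝ):ℂ) • x) := by
    rw [Complex.ofReal_zero, zero_smul, add_zero, ← hzero]
    exact hdiff.hasFDerivAt
  have h3 : HasDerivAt (egg ∘ fun s : ℝ => x + (s : ℂ) • x) ((0 : C2 →L[ℝ] ℝ) x) 0 := h2.comp_hasDerivAt (0:ℝ) h1
  have h4 : (egg ∘ fun s : ℝ => x + (s : ℂ) • x) = fun s : ℝ =>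
    (‖x 0‖ ^ 2 + 2 * ((x 0).re * (x 0).re + (x 0).im * (x 0).im) * s + ‖x 0‖ ^ 2 * s ^ 2) +
    (‖x 1‖ ^ 2 + 2 * ((x 1).re * (x 1).re + (x 1).im * (x 1).im) * s + ‖x 1‖ ^ 2 * s ^ 2) ^ 2 - 1 :=
    funext fun s => egg_line x x s
  rw [h4] at h3
  have h5 := h3.unique (poly_deriv _ _ _ _ _ _ 0)
  have hx' : ‖x 0‖ ^ 2 + ‖x 1‖ ^ 4 - 1 = 0 := hx
  have n0 : (x 0).re * (x 0).re + (x 0).im * (x 0).im = ‖x 0‖ ^ 2 := by
    rw [← Complex.normSq_eq_norm_sq, Complex.normSq_apply]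
  have n1 : (x 1).re * (x 1).re + (x 1).im * (x 1).im = ‖x 1‖ ^ 2 := by
    rw [← Complex.normSq_eq_norm_sq, Complex.normSq_apply]
  rw [n0, n1] at h5
  have h6 : ((0 : C2 →L[ℝ] ℝ) x) = 0 := rfl
  rw [h6] at h5
  nlinarith [sq_nonneg (‖x 0‖), sq_nonneg (‖x 1‖ ^ 2)]

theorem egg_localDef : LocalDef Egg univ egg :=
  ⟨isOpen_univ, fun n => (egg_contDiff n).contDiffOn, fun _ _ => Iff.rfl, fun x _ => egg_grad x⟩

theorem egg_open : IsOpen Egg := isOpen_lt (egg_contDiff 0).continuous continuous_const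

theorem frontier_sub {x : C2} (hx : x ∈ frontier Egg) : egg x = 0 :=
  frontier_lt_subset_eq (egg_contDiff 0).continuous continuous_const hx

theorem egg_type_at {x : C2} (hx : egg x = 0) : FiniteTypeAt Egg x :=
  ⟨univ, egg, mem_univ _, egg_localDef, 7, fun γ hγ hγ0 m N hm hN =>
    Pool.Agent.H788R3.EggSq.egg_type x hx γ hγ hγ0 m N hm hN⟩

theorem egg_convex : Convex ℝ Egg := by
  have hc : ConvexOn ℝ univ egg := by
    have h0 : ConvexOn ℝ univ (fun v : C2 => ‖v 0‖) := by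
      refine ⟨convex_univ, fun x _ y _ a b ha hb _ => ?_⟩
      calc ‖(a • x + b • y) 0‖ = ‖a • x 0 + b • y 0‖ := by simp
        _ ≤ ‖a • x 0‖ + ‖b • y 0‖ := norm_add_le _ _
        _ = a • ‖x 0‖ + b • ‖y 0‖ := by
          rw [norm_smul, norm_smul, Real.norm_of_nonneg ha, Real.norm_of_nonneg hb, smul_eq_mul, smul_eq_mul]
    have h1 : ConvexOn ℝ univ (fun v : C2 => ‖v 1‖) := by
      refine ⟨convex_univ, fun x _ y _ a b ha hb _ => ?_⟩
      calc ‖(a • x + b • y) 1‖ = ‖a • x 1 + b • y 1‖ := by simp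
        _ ≤ ‖a • x 1‖ + ‖b • y 1‖ := norm_add_le _ _
        _ = a • ‖x 1‖ + b • ‖y 1‖ := by
          rw [norm_smul, norm_smul, Real.norm_of_nonneg ha, Real.norm_of_nonneg hb, smul_eq_mul, smul_eq_mul]
    have h2 := h0.pow (fun _ _ => norm_nonneg _) 2
    have h3 := h1.pow (fun _ _ => norm_nonneg _) 4
    have h4 := (h2.add h3).add_const (-1)
    exact h4
  have h := hc.convex_lt 0
  have h5 : Egg = {x ∈ (univ : Set C2) | egg x < 0} := by
    ext x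
    simp [Egg]
  rw [h5]
  exact h

theorem zero_mem : (0 : C2) ∈ Egg := by
  show ‖(0 : C2) 0‖ ^ 2 + ‖(0 : C2) 1‖ ^ 4 - 1 < 0
  simp

theorem egg_bounded : Bornology.IsBounded Egg := by
  rw [Metric.isBounded_iff_subset_closedBall 0]
  refine ⟨2, fun v hv => ?_⟩
  rw [mem_closedBall_zero_iff]
  have h1 := Pool.Agent.H788R3.EggSq.egg_norm0 hv
  have h2 := Pool.Agent.H788R3.EggSq.egg_norm1 hv
  have h3 := Pool.Agent.H788R3.EggSq.norm_sq_C2 v
  have h4 := norm_nonneg (v 0)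
  have h5 := norm_nonneg (v 1)
  have h6 := norm_nonneg v
  nlinarith

/-- the weakly pseudoconvex point -/
noncomputable def pt : C2 := Pool.Agent.H788R3.EggSq.mk 1 0

theorem pt_egg : egg pt = 0 := by
  show ‖pt 0‖ ^ 2 + ‖pt 1‖ ^ 4 - 1 = 0
  simp [pt]

theorem mem_closure_of {x : C2} (hx : egg x = 0) : ∀ lam : ℝ, 0 ≤ lam → lam < 1 → (lam : ℂ) • x ∈ Egg := by
  intro lam h0 h1
  show ‖((lam : ℂ) • x) 0‖ ^ 2 + ‖((lam : ℂ) • x) 1‖ ^ 4 - 1 < 0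
  have hx' : ‖x 0‖ ^ 2 + ‖x 1‖ ^ 4 - 1 = 0 := hx
  have e0 : ‖((lam : ℂ) • x) 0‖ = lam * ‖x 0‖ := by
    rw [PiLp.smul_apply, norm_smul, Complex.norm_real, Real.norm_of_nonneg h0]
  have e1 : ‖((lam : ℂ) • x) 1‖ = lam * ‖x 1‖ := by
    rw [PiLp.smul_apply, norm_smul, Complex.norm_real, Real.norm_of_nonneg h0]
  rw [e0, e1, mul_pow, mul_pow]
  have h2 : lam ^ 2 < 1 := by nlinarith
  have h3 : lam ^ 4 ≤ lam ^ 2 := pow_le_pow_of_le_one h0 h1.le (by norm_num)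
  have h4 : 0 ≤ ‖x 0‖ ^ 2 := by positivity
  have h5 : 0 ≤ ‖x 1‖ ^ 4 := by positivity
  nlinarith

theorem pt_frontier : pt ∈ frontier Egg := by
  rw [frontier, Set.mem_sdiff]
  constructor
  · apply mem_closure_of_tendsto (f := fun n : ℕ => ((1 - 1 / ((n:ℝ) + 1) : ℝ) : ℂ) • pt) (b := atTop)
    · have h1 : Tendsto (fun n : ℕ => (1 - 1 / ((n:ℝ) + 1) : ℝ)) atTop (𝓝 (1 - 0)) :=
        tendsto_const_nhds.sub tendsto_one_div_add_atTop_nhds_zero_nat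
      rw [sub_zero] at h1
      have h2 : Tendsto (fun n : ℕ => ((1 - 1 / ((n:ℝ) + 1) : ℝ) : ℂ)) atTop (𝓝 ((1:ℝ):ℂ)) :=
        (Complex.continuous_ofReal.tendsto 1).comp h1
      have h3 := h2.smul_const pt
      rw [Complex.ofReal_one, one_smul] at h3
      exact h3
    · apply Eventually.of_forall
      intro n
      have hn : (0:ℝ) < (n:ℝ) + 1 := by positivity
      have h1 : 1 / ((n:ℝ) + 1) ≤ 1 := by
        rw [div_le_one hn]
        have : (0:ℝ) ≤ n := Nat.cast_nonneg n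
        linarith
      exact mem_closure_of pt_egg _ (by linarith) (by
        have : 0 < 1 / ((n:ℝ) + 1) := by positivity
        linarith)
  · rw [egg_open.interior_eq]
    intro h
    have : egg pt < 0 := h
    rw [pt_egg] at this
    exact lt_irrefl _ this

/-- any smooth defining function is flat to order four along the complex tangent at `pt` -/
theorem flat {U : Set C2} {ρ : C2 → ℝ} (hp : pt ∈ U) (hdef : LocalDef Egg U ρ) (τ : ℂ) (hτ : ‖τ‖ = 1) :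
    ∃ C : ℝ, ∀ᶠ s : ℝ in 𝓝 (0:ℝ), |ρ (pt + (s : ℂ) • Pool.Agent.H788R3.EggSq.mk 0 τ)| ≤ C * s ^ 4 := by
  obtain ⟨hU, hsm, hin, -⟩ := hdef
  have hcd : ContDiffAt ℝ 1 ρ pt := (hsm 1).contDiffAt (hU.mem_nhds hp)
  obtain ⟨K, t, ht, hK⟩ := hcd.exists_lipschitzOnWith
  set y : ℝ → C2 := fun s => Pool.Agent.H788R3.EggSq.mk (Real.sqrt (1 - s ^ 4)) ((s : ℂ) * τ) with hy
  have hycont : Continuous y := by
    rw [hy]
    apply (PiLp.continuous_toLp 2 _).comp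
    apply continuous_pi
    intro i
    fin_cases i
    · simp
      fun_prop
    · simp
      fun_prop
  have hy0 : y 0 = pt := by
    rw [hy]
    apply Pool.Agent.H788R3.EggSq.ext2 <;> simp [pt]
  have hxcont : Continuous (fun s : ℝ => pt + (s : ℂ) • Pool.Agent.H788R3.EggSq.mk 0 τ) := by fun_prop
  have hx0 : pt + ((0:ℝ) : ℂ) • Pool.Agent.H788R3.EggSq.mk 0 τ = pt := by simp
  have ev1 : ∀ᶠ s : ℝ in 𝓝 (0:ℝ), y s ∈ t ∩ U := by
    apply hycont.continuousAt.eventually_mem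
    rw [hy0]
    exact inter_mem ht (hU.mem_nhds hp)
  have ev2 : ∀ᶠ s : ℝ in 𝓝 (0:ℝ), pt + (s : ℂ) • Pool.Agent.H788R3.EggSq.mk 0 τ ∈ t := by
    apply hxcont.continuousAt.eventually_mem
    rw [hx0]
    exact ht
  have ev3 : ∀ᶠ s : ℝ in 𝓝 (0:ℝ), s ∈ Ioo (-1:ℝ) 1 := Ioo_mem_nhds (by norm_num) (by norm_num)
  refine ⟨K, ?_⟩
  filter_upwards [ev1, ev2, ev3] with s h1 h2 h3
  have hs2 : s ^ 2 < 1 := by
    have := h3.1
    have := h3.2
    nlinarith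
  have hs4 : s ^ 4 ≤ 1 := by nlinarith [sq_nonneg s]
  have hs40 : 0 ≤ s ^ 4 := by positivity
  have hegg : egg (y s) = 0 := by
    show ‖(y s) 0‖ ^ 2 + ‖(y s) 1‖ ^ 4 - 1 = 0
    rw [hy]
    simp only [Pool.Agent.H788R3.EggSq.mk_zero, Pool.Agent.H788R3.EggSq.mk_one]
    rw [norm_mul, hτ, mul_one, Complex.norm_real, Complex.norm_real, Real.norm_of_nonneg (Real.sqrt_nonneg _),
      Real.sq_sqrt (by linarith), Real.norm_eq_abs]
    have : |s| ^ 4 = s ^ 4 := by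
      rw [← abs_pow, abs_of_nonneg hs40]
    rw [this]
    ring
  have hρ0 : ρ (y s) = 0 := by
    apply le_antisymm
    · have hcont : ContinuousAt ρ (y s) := ((hsm 0).continuousOn).continuousAt (hU.mem_nhds h1.2)
      have hlam : Tendsto (fun lam : ℝ => (lam : ℂ) • y s) (𝓝[<] 1) (𝓝 (y s)) := by
        have hc : Continuous (fun lam : ℝ => (lam : ℂ) • y s) := by fun_prop
        have := (hc.tendsto 1).mono_left (nhdsWithin_le_nhds (s := Iio 1))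
        simpa using this
      have hlim := hcont.tendsto.comp hlam
      apply le_of_tendsto hlim
      have e1 : ∀ᶠ lam : ℝ in 𝓝[<] (1:ℝ), (lam : ℂ) • y s ∈ U := hlam.eventually_mem (hU.mem_nhds h1.2)
      have e2 : Ioo (0:ℝ) 1 ∈ 𝓝[<] (1:ℝ) := Ioo_mem_nhdsLT one_pos
      filter_upwards [e1, e2] with lam h4 h5
      exact ((hin _ h4).mp (mem_closure_of hegg lam h5.1.le h5.2)).le
    · by_contra hneg
      push Not at hneg
      have : egg (y s) < 0 := (hin _ h1.2).mpr hneg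
      rw [hegg] at this
      exact lt_irrefl _ this
  have hlip := hK.dist_le_mul _ h2 _ h1.1
  rw [hρ0, Real.dist_eq, sub_zero] at hlip
  refine hlip.trans ?_
  apply mul_le_mul_of_nonneg_left _ K.2
  rw [dist_eq_norm]
  have hdiff : pt + (s : ℂ) • Pool.Agent.H788R3.EggSq.mk 0 τ - y s = Pool.Agent.H788R3.EggSq.mk ((1 - Real.sqrt (1 - s ^ 4) : ℝ) : ℂ) 0 := by
    rw [hy]
    apply Pool.Agent.H788R3.EggSq.ext2 <;> simp [pt]
  rw [hdiff]
  apply le_of_sq_le_sq _ hs40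
  rw [Pool.Agent.H788R3.EggSq.norm_sq_C2]
  simp only [Pool.Agent.H788R3.EggSq.mk_zero, Pool.Agent.H788R3.EggSq.mk_one]
  rw [Complex.norm_real, norm_zero, Real.norm_eq_abs, sq_abs]
  have hsq0 := Real.sqrt_nonneg (1 - s ^ 4)
  have hsq : Real.sqrt (1 - s ^ 4) ^ 2 = 1 - s ^ 4 := Real.sq_sqrt (by linarith)
  have hsq1 : Real.sqrt (1 - s ^ 4) ≤ 1 := by nlinarith
  have hge : 1 - s ^ 4 ≤ Real.sqrt (1 - s ^ 4) := by nlinarith
  nlinarith

/-- one variable fact -/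
theorem no_pos_second {h : ℝ → ℝ} {C : ℝ} (hC : ∀ᶠ s : ℝ in 𝓝 (0:ℝ), |h s| ≤ C * s ^ 4)
    (hd : ∀ᶠ s : ℝ in 𝓝 (0:ℝ), DifferentiableAt ℝ h s) : HasDerivAt h 0 0 ∧ iteratedDeriv 2 h 0 ≤ 0 := by
  have h0 : h 0 = 0 := by
    have := hC.self_of_nhds
    simpa using this
  have hder : HasDerivAt h 0 0 := by
    rw [hasDerivAt_iff_isLittleO_nhds_zero]
    simp only [zero_add, h0, sub_zero, smul_zero]
    have h1 : h =O[𝓝 0] fun s : ℝ => s ^ 4 := by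
      apply IsBigO.of_bound C
      filter_upwards [hC] with s hs
      rw [Real.norm_eq_abs, Real.norm_of_nonneg (by positivity)]
      exact hs
    have h2 : (fun s : ℝ => s ^ 4) =o[𝓝 0] fun s : ℝ => s ^ 1 := isLittleO_pow_pow (by norm_num)
    simpa using h1.trans_isLittleO h2
  refine ⟨hder, ?_⟩
  by_contra hneg
  push Not at hneg
  rw [iteratedDeriv_succ, iteratedDeriv_one] at hneg
  set c := deriv (deriv h) 0 with hc
  have hdd : DifferentiableAt ℝ (deriv h) 0 := differentiableAt_of_deriv_ne_zero (by rw [← hc]; exact hneg.ne')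
  set g : ℝ → ℝ := fun s => h s - c / 4 * s ^ 2 with hg
  have hq : ∀ s : ℝ, HasDerivAt (fun s : ℝ => c / 4 * s ^ 2) (c / 4 * (2 * s)) s := by
    intro s
    have h2 : HasDerivAt (fun s : ℝ => s ^ 2) (((2:ℕ):ℝ) * s ^ (2 - 1)) s := hasDerivAt_pow 2 s
    have h3 := h2.const_mul (c / 4)
    exact hd_cast h3 (by norm_num)
  have hgd : deriv g =ᶠ[𝓝 0] fun s => deriv h s - c / 4 * (2 * s) := by
    filter_upwards [hd] with s hs
    exact (hs.hasDerivAt.sub (hq s)).deriv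
  have hg0 : deriv g 0 = 0 := by
    rw [hgd.self_of_nhds]
    show deriv h 0 - c / 4 * (2 * 0) = 0
    rw [hder.deriv]
    ring
  have hgg : deriv (deriv g) 0 = c - c / 2 := by
    rw [hgd.deriv_eq]
    have h4 : HasDerivAt (fun s : ℝ => c / 4 * (2 * s)) (c / 4 * (2 * 1)) 0 :=
      ((hasDerivAt_id (0:ℝ)).const_mul 2).const_mul (c / 4)
    have h5 := (hdd.hasDerivAt.sub h4).deriv
    rw [← hc] at h5
    have h6 : deriv (fun s => deriv h s - c / 4 * (2 * s)) 0 = c - c / 4 * (2 * 1) := h5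
    rw [h6]
    ring
  have hmin := isLocalMin_of_deriv_deriv_pos (f := g) (x₀ := 0) (by rw [hgg]; linarith) hg0
    (hder.continuousAt.sub (hq 0).continuousAt)
  have hg00 : g 0 = 0 := by simp [hg, h0]
  have hmin' : ∀ᶠ s : ℝ in 𝓝 (0:ℝ), g 0 ≤ g s := hmin
  have hev := hmin'.and hC
  rw [Metric.eventually_nhds_iff_ball] at hev
  obtain ⟨ε, hε, hball⟩ := hev
  set s := min (ε / 2) (Real.sqrt (c / (8 * (|C| + 1)))) with hs
  have hspos : 0 < s := lt_min (by positivity) (Real.sqrt_pos.mpr (by positivity))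
  have hsmem : s ∈ ball (0:ℝ) ε := by
    rw [mem_ball_zero_iff, Real.norm_of_nonneg hspos.le]
    exact (min_le_left _ _).trans_lt (by linarith)
  obtain ⟨h7, h8⟩ := hball s hsmem
  rw [hg00, hg] at h7
  have h9 : c / 4 * s ^ 2 ≤ C * s ^ 4 := by
    have := (le_abs_self _).trans h8
    simp only at h7
    linarith
  have h10 : s ^ 2 ≤ c / (8 * (|C| + 1)) := by
    calc s ^ 2 ≤ Real.sqrt (c / (8 * (|C| + 1))) ^ 2 := by
          have := min_le_right (ε / 2) (Real.sqrt (c / (8 * (|C| + 1))))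
          gcongr
      _ = _ := Real.sq_sqrt (by positivity)
  have h11 : C * s ^ 4 ≤ (|C| + 1) * (c / (8 * (|C| + 1))) * s ^ 2 := by
    calc C * s ^ 4 ≤ (|C| + 1) * s ^ 4 := by
          have := le_abs_self C
          gcongr
          linarith
      _ = (|C| + 1) * s ^ 2 * s ^ 2 := by ring
      _ ≤ (|C| + 1) * (c / (8 * (|C| + 1))) * s ^ 2 := by gcongr
  have h12 : (|C| + 1) * (c / (8 * (|C| + 1))) = c / 8 := by
    have : |C| + 1 ≠ 0 := by positivity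
    field_simp
  rw [h12] at h11
  have h13 : 0 < c * s ^ 2 := by positivity
  nlinarith

theorem not_strongly : ¬ StronglyPseudoconvexAt Egg pt := by
  rintro ⟨U, ρ, hp, hdef, hpos⟩
  obtain ⟨hU, hsm, hin, hgr⟩ := hdef
  have hcd : ContDiffOn ℝ 1 ρ U := hsm 1
  have hline : ∀ τ : ℂ, ‖τ‖ = 1 → fderiv ℝ ρ pt (Pool.Agent.H788R3.EggSq.mk 0 τ) = 0 ∧
      iteratedDeriv 2 (fun s : ℝ => ρ (pt + (s : ℂ) • Pool.Agent.H788R3.EggSq.mk 0 τ)) 0 ≤ 0 := by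
    intro τ hτ
    obtain ⟨C, hC⟩ := flat hp ⟨hU, hsm, hin, hgr⟩ τ hτ
    have hl : ∀ s : ℝ, HasDerivAt (fun s : ℝ => pt + (s : ℂ) • Pool.Agent.H788R3.EggSq.mk 0 τ) (Pool.Agent.H788R3.EggSq.mk 0 τ) s := by
      intro s
      have h2 : HasDerivAt (fun s : ℝ => (s : ℂ) • Pool.Agent.H788R3.EggSq.mk 0 τ) ((1:ℂ) • Pool.Agent.H788R3.EggSq.mk 0 τ) s :=
        (Complex.ofRealCLM.hasDerivAt (x := s)).smul_const (Pool.Agent.H788R3.EggSq.mk 0 τ)
      rw [one_smul] at h2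
      exact h2.const_add pt
    have hxcont : Continuous (fun s : ℝ => pt + (s : ℂ) • Pool.Agent.H788R3.EggSq.mk 0 τ) := by fun_prop
    have hx0 : pt + ((0:ℝ) : ℂ) • Pool.Agent.H788R3.EggSq.mk 0 τ = pt := by simp
    have hevU : ∀ᶠ s : ℝ in 𝓝 (0:ℝ), pt + (s : ℂ) • Pool.Agent.H788R3.EggSq.mk 0 τ ∈ U := by
      apply hxcont.continuousAt.eventually_mem
      rw [hx0]
      exact hU.mem_nhds hp
    have hdiff : ∀ x ∈ U, DifferentiableAt ℝ ρ x := fun x hx =>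
      (hcd.differentiableOn (by norm_num)).differentiableAt (hU.mem_nhds hx)
    have hd : ∀ᶠ s : ℝ in 𝓝 (0:ℝ), DifferentiableAt ℝ (fun s : ℝ => ρ (pt + (s : ℂ) • Pool.Agent.H788R3.EggSq.mk 0 τ)) s := by
      filter_upwards [hevU] with s hs
      exact ((hdiff _ hs).hasFDerivAt.comp_hasDerivAt s (hl s)).differentiableAt
    obtain ⟨h1, h2⟩ := no_pos_second hC hd
    refine ⟨?_, h2⟩
    have h3 : HasFDerivAt ρ (fderiv ℝ ρ pt) (pt + ((0:ℝ) : ℂ) • Pool.Agent.H788R3.EggSq.mk 0 τ) := by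
      rw [hx0]
      exact (hdiff pt hp).hasFDerivAt
    have h4 := h3.comp_hasDerivAt (0:ℝ) (hl 0)
    exact h4.unique h1
  have hv : Pool.Agent.H788R3.EggSq.mk 0 1 ≠ 0 := by
    intro h
    have := congrArg (fun x : C2 => x 1) h
    simp at this
  have hI : Complex.I • Pool.Agent.H788R3.EggSq.mk 0 1 = Pool.Agent.H788R3.EggSq.mk 0 Complex.I := by
    apply Pool.Agent.H788R3.EggSq.ext2 <;> simp
  obtain ⟨h1, h2⟩ := hline 1 (by simp)
  obtain ⟨h3, h4⟩ := hline Complex.I (by simp)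
  have h5 := hpos (Pool.Agent.H788R3.EggSq.mk 0 1) hv ⟨h1, by rw [hI]; exact h3⟩
  unfold levi at h5
  have h6 : (fun s : ℝ => ρ (pt + ((s : ℂ) * Complex.I) • Pool.Agent.H788R3.EggSq.mk 0 1)) = fun s : ℝ => ρ (pt + (s : ℂ) • Pool.Agent.H788R3.EggSq.mk 0 Complex.I) := by
    ext s
    rw [← hI, smul_smul]
  rw [h6] at h5
  linarith

theorem squeezing_le_one (D : Set C2) (z : C2) : squeezing D z ≤ 1 := by
  unfold squeezing
  apply Real.sSup_le _ zero_le_one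
  rintro r ⟨hr, F, -, -, hm, -, hb⟩
  by_contra hcon
  push Not at hcon
  have h1 : Pool.Agent.H788R3.EggSq.mk 1 0 ∈ ball (0:C2) r := by
    rw [mem_ball_zero_iff]
    have h2 : ‖Pool.Agent.H788R3.EggSq.mk 1 0‖ ^ 2 = 1 := by
      rw [Pool.Agent.H788R3.EggSq.norm_sq_C2]
      simp
    have h3 : ‖Pool.Agent.H788R3.EggSq.mk 1 0‖ = 1 := by
      have := norm_nonneg (Pool.Agent.H788R3.EggSq.mk 1 0)
      nlinarith
    rw [h3]
    exact hcon
  obtain ⟨x, hx, hxe⟩ := hb h1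
  have h4 := hm hx
  rw [hxe, mem_ball_zero_iff] at h4
  have h2 : ‖Pool.Agent.H788R3.EggSq.mk 1 0‖ ^ 2 = 1 := by
    rw [Pool.Agent.H788R3.EggSq.norm_sq_C2]
    simp
  have := norm_nonneg (Pool.Agent.H788R3.EggSq.mk 1 0)
  nlinarith

theorem squeezing_ge {D : Set C2} {z : C2} {r : ℝ} (hr : 0 < r)
    (h : ∃ F : C2 → C2, DifferentiableOn ℂ F D ∧ InjOn F D ∧ MapsTo F D (ball 0 1) ∧ F z = 0 ∧ ball 0 r ⊆ F '' D) :
    r ≤ squeezing D z := by
  unfold squeezing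
  refine le_csSup ?_ ⟨hr, h⟩
  refine ⟨1, ?_⟩
  rintro r' ⟨hr', F, -, -, hm, -, hb⟩
  by_contra hcon
  push Not at hcon
  have h1 : Pool.Agent.H788R3.EggSq.mk 1 0 ∈ ball (0:C2) r' := by
    rw [mem_ball_zero_iff]
    have h2 : ‖Pool.Agent.H788R3.EggSq.mk 1 0‖ ^ 2 = 1 := by
      rw [Pool.Agent.H788R3.EggSq.norm_sq_C2]
      simp
    have h3 : ‖Pool.Agent.H788R3.EggSq.mk 1 0‖ = 1 := by
      have := norm_nonneg (Pool.Agent.H788R3.EggSq.mk 1 0)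
      nlinarith
    rw [h3]
    exact hcon
  obtain ⟨x, hx, hxe⟩ := hb h1
  have h4 := hm hx
  rw [hxe, mem_ball_zero_iff] at h4
  have h2 : ‖Pool.Agent.H788R3.EggSq.mk 1 0‖ ^ 2 = 1 := by
    rw [Pool.Agent.H788R3.EggSq.norm_sq_C2]
    simp
  have := norm_nonneg (Pool.Agent.H788R3.EggSq.mk 1 0)
  nlinarith

/-- points with prescribed parameters -/
theorem egg_point {s t : ℝ} (hs0 : 0 < s) (hs1 : s < 1) (ht0 : 0 < t) (ht1 : t < 1) (ht : 1 < 2 * t ^ 2) :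
    ∃ x ∈ Egg, x 0 = (s : ℂ) ∧ ‖x 1‖ ^ 4 ≤ 1 - s ^ 2 ∧ Real.sqrt (2 * t ^ 2 - 1) ≤ squeezing Egg x := by
  obtain ⟨Q, hQd, hQi, hQm, hQ0, hQs⟩ := Pool.Agent.H788R3.EggSq.sq_map ht0 ht1
  obtain ⟨A, hAd, hAi, hAm, hAs, hA0⟩ := Pool.Agent.H788R3.EggSq.egg_aut hs0 hs1
  have hmem : Pool.Agent.H788R3.EggSq.mk 0 t ∈ Egg := by
    show ‖(Pool.Agent.H788R3.EggSq.mk 0 t) 0‖ ^ 2 + ‖(Pool.Agent.H788R3.EggSq.mk 0 t) 1‖ ^ 4 - 1 < 0
    simp only [Pool.Agent.H788R3.EggSq.mk_zero, Pool.Agent.H788R3.EggSq.mk_one]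
    rw [norm_zero, Complex.norm_real, Real.norm_of_nonneg ht0.le]
    have : t ^ 4 < 1 := pow_lt_one₀ ht0.le ht1 (by norm_num)
    linarith
  obtain ⟨x, hx, hAx⟩ := hAs hmem
  have hx0 : x 0 = (s : ℂ) := hA0 x hx (by rw [hAx]; simp)
  refine ⟨x, hx, hx0, ?_, ?_⟩
  · have hx' : ‖x 0‖ ^ 2 + ‖x 1‖ ^ 4 - 1 < 0 := hx
    rw [hx0, Complex.norm_real, Real.norm_of_nonneg hs0.le] at hx'
    linarith
  · apply squeezing_ge (Real.sqrt_pos.mpr (by linarith))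
    refine ⟨fun v => Q (A v), ?_, ?_, ?_, ?_, ?_⟩
    · exact hQd.comp hAd hAm
    · exact hQi.comp hAi hAm
    · exact hQm.comp hAm
    · show Q (A x) = 0
      rw [hAx]
      exact hQ0
    · intro y hy
      obtain ⟨u, hu, hue⟩ := hQs hy
      obtain ⟨v, hv, hve⟩ := hAs hu
      exact ⟨v, hv, by show Q (A v) = y; rw [hve, hue]⟩

/-- The answer to Q1 is yes: there is an admissible pair `(D,p)` in `ℂ²` (satisfying (A), (B) and (C) at once)
with a sequence `z ν → p` along which the squeezing function tends to one, although `p` is not strongly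
pseudoconvex. -/
theorem result : ∃ (D : Set C2) (p : C2), IsOpen D ∧ IsConnected D ∧ Bornology.IsBounded D ∧ p ∈ frontier D ∧
    CaseA D p ∧ CaseB D p ∧ CaseC D p ∧ ¬ StronglyPseudoconvexAt D p ∧
    ∃ z : ℕ → C2, (∀ ν, z ν ∈ D) ∧ Tendsto z atTop (𝓝 p) ∧
      Tendsto (fun ν => squeezing D (z ν)) atTop (𝓝 1) := by
  have hft : ∀ x ∈ (univ : Set C2) ∩ frontier Egg, FiniteTypeAt Egg x := fun x hx => egg_type_at (frontier_sub hx.2)
  have hlp : LeviPseudoconvexNear Egg pt :=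
    ⟨univ, egg, mem_univ _, egg_localDef, fun x _ _ v _ => egg_levi x v⟩
  refine ⟨Egg, pt, egg_open, egg_convex.isConnected ⟨0, zero_mem⟩, egg_bounded, pt_frontier,
    ⟨hlp, egg_type_at pt_egg⟩, ⟨hlp, univ, isOpen_univ, mem_univ _, hft⟩,
    ⟨egg_convex, ⟨univ, egg, mem_univ _, egg_localDef⟩, univ, isOpen_univ, mem_univ _, hft⟩, not_strongly, ?_⟩
  set s : ℕ → ℝ := fun n => 1 - 1 / ((n:ℝ) + 2) with hs
  set t : ℕ → ℝ := fun n => 1 - 1 / ((n:ℝ) + 4) with ht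
  have hs0 : ∀ n, 0 < s n := by
    intro n
    have hn : (0:ℝ) ≤ n := Nat.cast_nonneg n
    have : 1 / ((n:ℝ) + 2) < 1 := by rw [div_lt_one (by positivity)]; linarith
    simp only [hs]
    linarith
  have hs1 : ∀ n, s n < 1 := by
    intro n
    have : 0 < 1 / ((n:ℝ) + 2) := by positivity
    simp only [hs]
    linarith
  have ht34 : ∀ n, 3 / 4 ≤ t n := by
    intro n
    have hn : (0:ℝ) ≤ n := Nat.cast_nonneg n
    have : 1 / ((n:ℝ) + 4) ≤ 1 / 4 := one_div_le_one_div_of_le (by norm_num) (by linarith)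
    simp only [ht]
    linarith
  have ht1 : ∀ n, t n < 1 := by
    intro n
    have : 0 < 1 / ((n:ℝ) + 4) := by positivity
    simp only [ht]
    linarith
  have hlim_inv : ∀ c : ℝ, Tendsto (fun n : ℕ => 1 / ((n:ℝ) + c)) atTop (𝓝 0) := by
    intro c
    have h1 : Tendsto (fun n : ℕ => (n:ℝ) + c) atTop atTop :=
      tendsto_atTop_add_const_right _ _ tendsto_natCast_atTop_atTop
    have h2 := h1.inv_tendsto_atTop
    simp only [one_div]
    exact h2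
  have hslim : Tendsto s atTop (𝓝 1) := by
    have := (tendsto_const_nhds (x := (1:ℝ))).sub (hlim_inv 2)
    rwa [sub_zero] at this
  have htlim : Tendsto t atTop (𝓝 1) := by
    have := (tendsto_const_nhds (x := (1:ℝ))).sub (hlim_inv 4)
    rwa [sub_zero] at this
  have hpts := fun n => egg_point (hs0 n) (hs1 n) (by linarith [ht34 n] : 0 < t n) (ht1 n)
    (by nlinarith [ht34 n, sq_nonneg (t n - 3 / 4)])
  choose z hzE hz0 hz1 hzs using hpts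
  refine ⟨z, hzE, ?_, ?_⟩
  · -- convergence
    rw [tendsto_iff_norm_sub_tendsto_zero]
    have hbound : ∀ n, ‖z n - pt‖ ^ 4 ≤ 4 * (1 - s n) ^ 2 + 4 * (1 - s n ^ 2) := by
      intro n
      have h1 := Pool.Agent.H788R3.EggSq.norm_sq_C2 (z n - pt)
      have e0 : (z n - pt) 0 = ((s n - 1 : ℝ) : ℂ) := by
        rw [PiLp.sub_apply, hz0]
        simp [pt]
      have e1 : (z n - pt) 1 = z n 1 := by
        simp [pt]
      rw [e0, e1, Complex.norm_real, Real.norm_eq_abs, sq_abs] at h1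
      have h2 := hz1 n
      have h3 : 0 ≤ 1 - s n := by linarith [hs1 n]
      have h4 : 1 - s n ≤ 1 := by linarith [hs0 n]
      have h5 : (s n - 1) ^ 4 ≤ (1 - s n) ^ 2 := by
        have h6 : (1 - s n) ^ 2 ≤ 1 := by nlinarith
        nlinarith [sq_nonneg (1 - s n), sq_nonneg (s n - 1)]
      have h6 : ‖z n - pt‖ ^ 4 = (‖z n - pt‖ ^ 2) ^ 2 := by ring
      rw [h6, h1]
      have h7 : ((s n - 1) ^ 2 + ‖z n 1‖ ^ 2) ^ 2 ≤ 2 * (s n - 1) ^ 4 + 2 * ‖z n 1‖ ^ 4 := by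
        nlinarith [sq_nonneg ((s n - 1) ^ 2 - ‖z n 1‖ ^ 2)]
      nlinarith [sq_nonneg (1 - s n)]
    have hlim4 : Tendsto (fun n => ‖z n - pt‖ ^ 4) atTop (𝓝 0) := by
      apply squeeze_zero (fun n => by positivity) hbound
      have h1 : Tendsto (fun n => 4 * (1 - s n) ^ 2 + 4 * (1 - s n ^ 2)) atTop
          (𝓝 (4 * (1 - 1) ^ 2 + 4 * (1 - 1 ^ 2))) := by
        exact ((((tendsto_const_nhds.sub hslim).pow 2).const_mul 4).add
          ((tendsto_const_nhds.sub (hslim.pow 2)).const_mul 4))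
      simpa using h1
    have h2 : Tendsto (fun n => Real.sqrt (Real.sqrt (‖z n - pt‖ ^ 4))) atTop (𝓝 (Real.sqrt (Real.sqrt 0))) :=
      (Real.continuous_sqrt.tendsto _).comp ((Real.continuous_sqrt.tendsto _).comp hlim4)
    rw [Real.sqrt_zero, Real.sqrt_zero] at h2
    refine h2.congr (fun n => ?_)
    have h3 : ‖z n - pt‖ ^ 4 = (‖z n - pt‖ ^ 2) ^ 2 := by ring
    rw [h3, Real.sqrt_sq (by positivity), Real.sqrt_sq (norm_nonneg _)]
  · -- the squeezing function tends to one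
    have hlow : Tendsto (fun n => Real.sqrt (2 * t n ^ 2 - 1)) atTop (𝓝 1) := by
      have h1 : Tendsto (fun n => 2 * t n ^ 2 - 1) atTop (𝓝 (2 * 1 ^ 2 - 1)) :=
        ((htlim.pow 2).const_mul 2).sub_const 1
      have h2 := (Real.continuous_sqrt.tendsto _).comp h1
      have h3 : Real.sqrt (2 * 1 ^ 2 - 1) = 1 := by norm_num
      rw [h3] at h2
      exact h2
    exact tendsto_of_tendsto_of_tendsto_of_le_of_le hlow tendsto_const_nhds hzs
      (fun n => squeezing_le_one _ _)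

end Pool.Agent.Results.MP_63facb_an.EggTangential
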